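import Pool.Agent.X9.ZM.Pres

/-!
# MP_93267c_al, Q1: the relative subgroup commutativity degrees of ZM-groups

`ZM(m,n,r) = ⟨a, b | a^m = b^n = 1, b⁻¹ a b = a^r⟩` with `gcd(m,n) = 1` and `r^n ≡ 1 (mod m)`.
For the subgroup `H = H_(m1,n1,s)` we determine `sd(H, ZM(m,n,r))` explicitly.

For a prime `p` dividing `m` let `k = v_p(m)` and `j = v_p(m1)`, and for divisors `d`, `e` of `n` put

* `λ_p(d) = k - j + 1` if `p ∣ r^d - 1`, and `(p^(k-j+1) - 1)/(p - 1)` otherwise (`locL`);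
* `μ_p(d,e)` (`locP`) equal to
  `(k-j+1)(k+1)` if `p ∣ r^d - 1` and `p ∣ r^e - 1`,
  `(k-j+1)(p^(k+1)-1)/(p-1)` if `p` divides only `r^d - 1`,
  `(k+1)(p^(k-j+1)-1)/(p-1)` if `p` divides only `r^e - 1`,
  `(j+1)(p^(k-j+1)-1)/(p-1) + 2((k-j)p^(k-j+2) - (k-j+1)p^(k-j+1) + p)/(p-1)^2` if `p` divides
  neither.

Then

`sd(H,G) = (∑_{n1 | d | n} ∑_{e | n} ∏_{p | m} μ_p(d,e)) / (L(m1,n1) L(1,1))`,

where `L(m1,n1) = ∑_{n1 | d | n} ∏_{p | m} λ_p(d)` is the number of subgroups of `H`.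

The proof: every subgroup of `G` is `T(u,d,x) = ⟨a^u, a^(-x) b^d a^x⟩` with `u | m`, `d | n` and `x`
modulo `u / gcd(u, r^d - 1)`; two of them, `T(u,d,x)` and `T(v,e,y)`, permute if and only if
`gcd(u,v)` divides `(x - y)(r^d - 1)(r^e - 1)`.
-/

namespace Pool.Agent.Results.MP_93267c_al.ExplicitFormula

open Pool.Agent.X9.ZM Finset Pointwise

/-- The relative subgroup commutativity degree `sd(H,G)`: the number of pairs `(A,B)` of a subgroup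
`A` of `H` and a subgroup `B` of `G` with `AB = BA`, divided by `|L(H)| |L(G)|`. -/
noncomputable def sd {G : Type*} [Group G] (H : Subgroup G) : ℚ :=
  (({p : Subgroup G × Subgroup G | p.1 ≤ H ∧
      (p.1 : Set G) * (p.2 : Set G) = (p.2 : Set G) * (p.1 : Set G)}.ncard : ℕ) : ℚ) /
    ((({A : Subgroup G | A ≤ H}.ncard : ℕ) : ℚ) * ((Nat.card (Subgroup G) : ℕ) : ℚ))

/-- The set `H_(m1,n1,s) = ⋃_{k=1}^{n/n1} (b^n1 a^s)^k ⟨a^m1⟩`. -/
def setH (m n : ℕ) (r : ℤ) (m1 n1 : ℕ) (s : ℤ) : Set (ZM m n r) :=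
  ⋃ k ∈ Finset.Icc 1 (n / n1),
    (fun x => (gb m n r ^ n1 * ga m n r ^ s) ^ k * x) ''
      (Subgroup.zpowers (ga m n r ^ m1) : Set (ZM m n r))

/-- `∑_{n1 | d | n} ∏_{p | m} λ_p(d)` -/
noncomputable def numL (m n : ℕ) (r : ℤ) (m1 n1 : ℕ) : ℚ :=
  ∑ d ∈ n.divisors with n1 ∣ d,
    ∏ p ∈ m.primeFactors, locL p (m.factorization p) (m1.factorization p) (r ^ d - 1)

/-- `∑_{n1 | d | n} ∑_{e | n} ∏_{p | m} μ_p(d,e)` -/
noncomputable def numP (m n : ℕ) (r : ℤ) (m1 n1 : ℕ) : ℚ :=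
  ∑ d ∈ n.divisors with n1 ∣ d, ∑ e ∈ n.divisors,
    ∏ p ∈ m.primeFactors,
      locP p (m.factorization p) (m1.factorization p) (r ^ d - 1) (r ^ e - 1)

/-- **The relative subgroup commutativity degrees of ZM-groups.** For all `m, n ≥ 1` and integers
`r` with `gcd(m,n) = 1` and `r^n ≡ 1 (mod m)`, all `m1 ∣ m`, `n1 ∣ n` and all integers `s` with
`m1 ∣ s (1 + r^n1 + r^(2 n1) + ... + r^(n - n1))`, the set `H_(m1,n1,s)` is a subgroup `H` of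
`ZM(m,n,r)` and `sd(H, ZM(m,n,r)) = numP m n r m1 n1 / (numL m n r m1 n1 * numL m n r 1 1)`. -/
theorem result (m n : ℕ) (r : ℤ) (hm : 1 ≤ m) (hn : 1 ≤ n) (hmn : m.Coprime n)
    (hr : r ^ n ≡ 1 [ZMOD m]) (m1 n1 : ℕ) (s : ℤ) (hm1 : m1 ∣ m) (hn1 : n1 ∣ n)
    (hs : (m1 : ℤ) ∣ s * ∑ t ∈ range (n / n1), (r ^ n1) ^ t) :
    ∃ H : Subgroup (ZM m n r), (H : Set (ZM m n r)) = setH m n r m1 n1 s ∧
      sd H = numP m n r m1 n1 / (numL m n r m1 n1 * numL m n r 1 1) := by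
  have hrn : (m : ℤ) ∣ r ^ n - 1 := hr.symm.dvd
  have D := zm_dat (r := r) hm hn hmn hrn
  obtain ⟨z, hz⟩ := D.H_set hm1 hn1 s hs
  refine ⟨T (ga m n r) (gb m n r) r m1 n1 z, hz, ?_⟩
  have hL : ∀ (M N : ℕ) (z : ℤ), M ∣ m → N ∣ n →
      (({A : Subgroup (ZM m n r) | A ≤ T (ga m n r) (gb m n r) r M N z}.ncard : ℕ) : ℚ) =
        numL m n r M N := by
    intro M N z hM hN
    rw [D.count_sub hM hN z, ← Finset.sum_filter]
    unfold numL
    refine Finset.sum_congr rfl fun d hd => ?_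
    exact GG_prod m (by omega) M hM _ (D.sp (Nat.dvd_of_mem_divisors (Finset.mem_filter.1 hd).1))
  have hP : (({p : Subgroup (ZM m n r) × Subgroup (ZM m n r) |
      p.1 ≤ T (ga m n r) (gb m n r) r m1 n1 z ∧
      (p.1 : Set (ZM m n r)) * (p.2 : Set (ZM m n r)) =
        (p.2 : Set (ZM m n r)) * (p.1 : Set (ZM m n r))}.ncard : ℕ) : ℚ) = numP m n r m1 n1 := by
    rw [D.count_pairs hm1 hn1 z, ← Finset.sum_filter]
    unfold numP
    refine Finset.sum_congr rfl fun d hd => Finset.sum_congr rfl fun e he => ?_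
    exact FF_prod m (by omega) m1 hm1 _ _
      (D.sp (Nat.dvd_of_mem_divisors (Finset.mem_filter.1 hd).1))
      (D.sp (Nat.dvd_of_mem_divisors he))
  have hT : T (ga m n r) (gb m n r) r 1 1 0 = ⊤ := by
    rw [eq_top_iff]
    intro g _
    obtain ⟨j, i, rfl⟩ := D.surj g
    exact (D.mem_T (one_dvd m) (one_dvd n) 0 j i).2 ⟨one_dvd _, by simp⟩
  have hG : ((Nat.card (Subgroup (ZM m n r)) : ℕ) : ℚ) = numL m n r 1 1 := by
    rw [← hL 1 1 0 (one_dvd m) (one_dvd n), hT, ← Set.ncard_univ]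
    congr 2
    ext A
    simp
  unfold sd
  rw [hP, hL m1 n1 z hm1 hn1, hG]

end Pool.Agent.Results.MP_93267c_al.ExplicitFormula
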